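import Mathlib

set_option autoImplicit false
open Filter Topology Finset

namespace Pool.Agent.Results.MP_0e842d_nt.SuperExp

/-- The pair `(a, b)` is `k`-good. -/
def Good (k a b : ℕ) : Prop :=
  ∃ p x y : ℕ, p.Prime ∧ ((p ^ k : ℕ) : ℤ) ≤ (a : ℤ) * b - a - b ∧ p ^ k = a * x + b * y

lemma bad (Q A k : ℕ) (hA : 0 < A) (h1 : 4 * A ^ 2 = Q ^ k) (h2 : 16 * Q * (Q - 1) ^ k < Q ^ k)
    (h3 : 4 * Q < A) : ∃ a, A < a ∧ ¬ Good k a (a + 1) := by
  let J := (Q - 1) ^ k / A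
  let f : ℕ × ℕ × ℕ → ℕ := fun t => t.1 ^ k / t.2.1 - t.2.2
  have hc : ((range Q ×ˢ range (J + 1) ×ˢ range 2).image f).card < (Ioc A (2 * A)).card := by
    refine card_image_le.trans_lt ?_
    simp only [card_product, card_range, Nat.card_Ioc]
    have hJ : J * A ≤ (Q - 1) ^ k := Nat.div_mul_le_self _ _
    have e : 2 * A - A = A := by omega
    rw [e]
    refine lt_of_mul_lt_mul_right (a := 8 * A) ?_ (Nat.zero_le _)
    have a1 := Nat.mul_le_mul_left (16 * Q) hJ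
    have a2 := Nat.mul_lt_mul_of_pos_right h3 hA
    nlinarith
  obtain ⟨a, ha, hn⟩ := exists_mem_notMem_of_card_lt_card hc
  obtain ⟨a1, a2⟩ := mem_Ioc.1 ha
  refine ⟨a, a1, fun ⟨p, x, y, hp, h4, h5⟩ => hn (mem_image.2 ?_)⟩
  have b1 : p ^ k < a ^ 2 := by
    have : ((p ^ k : ℕ) : ℤ) < (a : ℤ) ^ 2 := by push_cast at h4 ⊢; nlinarith
    exact_mod_cast this
  have b2 : p < Q := lt_of_pow_lt_pow_left₀ k (Nat.zero_le _) (by nlinarith)
  have b3 : 0 < x + y := by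
    have := pow_pos hp.pos k
    by_contra h
    obtain ⟨rfl, rfl⟩ : x = 0 ∧ y = 0 := by omega
    omega
  have b4 : p ^ k ≤ (Q - 1) ^ k := Nat.pow_le_pow_left (by omega) k
  have b5 : x + y ≤ J := (Nat.le_div_iff_mul_le hA).2 (by nlinarith)
  have b6 : a ≤ p ^ k / (x + y) := (Nat.le_div_iff_mul_le b3).2 (by nlinarith)
  have b7 : p ^ k / (x + y) ≤ a + 1 := Nat.div_le_of_le_mul (by nlinarith)
  refine ⟨(p, x + y, p ^ k / (x + y) - a), ?_, ?_⟩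
  · simp only [mem_product, mem_range]
    omega
  · simp only [f]
    omega

/-- For every `M`, for all large `k`, every `N` beyond which all coprime pairs are `k`-good
exceeds `M ^ k`. -/
theorem result (M : ℝ) (hM : 0 < M) : ∃ k₀ : ℕ, ∀ k ≥ k₀, ∀ N : ℕ, 0 < N →
    (∀ a b : ℕ, N < a → a < b → Nat.Coprime a b → Good k a b) → M ^ k < N := by
  obtain ⟨m, hm, hm0⟩ : ∃ m : ℕ, M ≤ m ∧ 0 < m := ⟨⌈M⌉₊, Nat.le_ceil M, Nat.ceil_pos.2 hM⟩
  obtain ⟨Q, hQ⟩ : ∃ Q, Q = 4 * m ^ 2 := ⟨_, rfl⟩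
  have Q0 : 0 < Q := by rw [hQ]; positivity
  have Q1 : (0 : ℝ) < Q := by exact_mod_cast Q0
  have t1 := (tendsto_pow_atTop_nhds_zero_of_lt_one (r := ((Q - 1 : ℕ) : ℝ) / Q) (by positivity)
    ((div_lt_one Q1).2 (by exact_mod_cast Nat.sub_lt Q0 one_pos))).eventually
    (gt_mem_nhds (show (0 : ℝ) < 1 / (16 * Q) by positivity))
  obtain ⟨k₀, hk⟩ := eventually_atTop.1 (t1.and (eventually_ge_atTop (4 * Q + 1)))
  refine ⟨k₀, fun k hk' N _ h => ?_⟩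
  obtain ⟨h1, h2⟩ := hk k hk'
  obtain ⟨j, rfl⟩ : ∃ j, k = j + 1 := ⟨k - 1, by omega⟩
  rw [div_pow, div_lt_div_iff₀ (by positivity) (by positivity), one_mul, mul_comm] at h1
  have h3 : j < 2 ^ j := Nat.lt_two_pow_self
  have h4 : 0 < m ^ (j + 1) := by positivity
  obtain ⟨a, a1, a2⟩ := bad Q (2 ^ j * m ^ (j + 1)) (j + 1) (by positivity)
    (by rw [hQ, show 4 * m ^ 2 = (2 * m) ^ 2 by ring, ← pow_mul, mul_comm 2 (j + 1), pow_mul]; ring) (by exact_mod_cast h1) (by nlinarith)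
  have a3 : a ≤ N := not_lt.1 fun hlt => a2 (h a (a + 1) hlt (Nat.lt_succ_self a) (by simp))
  have a4 : m ^ (j + 1) < N := by nlinarith
  exact (pow_le_pow_left₀ hM.le hm _).trans_lt (by exact_mod_cast a4)

end Pool.Agent.Results.MP_0e842d_nt.SuperExp
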